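import Pool.Agent.Helper61.MM.DefsB
import Pool.Agent.Helper60.TJ.Basic
import Pool.Agent.Helper99.MS.OkL

set_option autoImplicit false

/-!
# Consequences of `Ok` (deterministic)
-/

namespace Pool.Agent.Helper61.MM

open MeasureTheory Filter Topology Pool.Agent.Helper60.TJ
open scoped symmDiff

theorem indV_bdy (D : Finset Ed) : indV (bdy D) = par (ind D) := by
  funext v
  unfold indV bdy
  have key : par (ind D) v = true → v ∈ D.image da ∪ D.image db := by
    intro h
    have h1 : ∃ d : Dir, edg v d ∈ D := by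
      by_contra hcon
      push Not at hcon
      have h2 : ∀ d : Dir, ind D (edg v d) = false := fun d => by simpa [ind] using hcon d
      unfold par at h
      rw [h2 0, h2 1, h2 2, h2 3] at h
      exact absurd h (by decide)
    obtain ⟨d, hd⟩ := h1
    rw [Finset.mem_union, Finset.mem_image, Finset.mem_image]
    obtain ⟨x, y⟩ := v
    fin_cases d
    · right; exact ⟨_, hd, by simp [edg, db]⟩
    · right; exact ⟨_, hd, by simp [edg, db]⟩
    · left; exact ⟨_, hd, by simp [edg, da]⟩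
    · left; exact ⟨_, hd, by simp [edg, da]⟩
  cases h : par (ind D) v
  · rw [decide_eq_false_iff_not, Finset.mem_filter]
    rintro ⟨_, h2⟩
    rw [h] at h2
    exact Bool.false_ne_true h2
  · rw [decide_eq_true_eq, Finset.mem_filter]
    exact ⟨key h, h⟩

theorem indV_symmDiff (S S' : Finset Vx) : indV (S ∆ S') = vx (indV S) (indV S') := by
  funext v
  by_cases h : v ∈ S <;> by_cases h' : v ∈ S' <;> simp [indV, vx, Finset.mem_symmDiff, h, h']

theorem indV_inj {S S' : Finset Vx} (h : indV S = indV S') : S = S' := by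
  ext v
  have := congrFun h v
  unfold indV at this
  exact decide_eq_decide.1 this

private theorem cnt_x (v : Vx) (a : ℤ) : Cn (fun _ => true) v (v.1 + a, v.2) := by
  induction a using Int.induction_on with
  | zero => simpa using Cn.refl (fun _ => true) v
  | succ n ih =>
    have := Cn.step (W := fun _ => true) (v := (v.1 + (n : ℤ), v.2)) (d := 0) rfl
    refine ih.trans ?_
    simpa [stp, add_assoc] using this
  | pred n ih =>
    have := Cn.step (W := fun _ => true) (v := (v.1 + (-(n : ℤ)), v.2)) (d := 2) rfl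
    refine ih.trans ?_
    simpa [stp, add_assoc, sub_eq_add_neg] using this

private theorem cnt_y (v : Vx) (a : ℤ) : Cn (fun _ => true) v (v.1, v.2 + a) := by
  induction a using Int.induction_on with
  | zero => simpa using Cn.refl (fun _ => true) v
  | succ n ih =>
    have := Cn.step (W := fun _ => true) (v := (v.1, v.2 + (n : ℤ))) (d := 1) rfl
    refine ih.trans ?_
    simpa [stp, add_assoc] using this
  | pred n ih =>
    have := Cn.step (W := fun _ => true) (v := (v.1, v.2 + (-(n : ℤ)))) (d := 3) rfl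
    refine ih.trans ?_
    simpa [stp, add_assoc, sub_eq_add_neg] using this

/-- a finite path from `x` to `x'` -/
theorem exists_path (x x' : Vx) : ∃ D : Finset Ed, par (ind D) = vx (dl x) (dl x') := by
  have h1 := cnt_x x (x'.1 - x.1)
  have h2 := cnt_y (x.1 + (x'.1 - x.1), x.2) (x'.2 - x.2)
  have h3 := h1.trans h2
  have h4 : ((x.1 + (x'.1 - x.1), x.2).1, (x.1 + (x'.1 - x.1), x.2).2 + (x'.2 - x.2)) = x' := by
    ext <;> simp
  rw [h4] at h3
  obtain ⟨X, _, hX⟩ := h3
  exact ⟨X, hX⟩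

private theorem indV_singleton (x : Vx) : indV {x} = dl x := by
  funext v
  simp [indV, dl]

theorem bdy_eq {D : Finset Ed} {x x' : Vx} (h : par (ind D) = vx (dl x) (dl x')) :
    bdy D = ({x} : Finset Vx) ∆ {x'} := by
  apply indV_inj
  rw [indV_bdy, indV_symmDiff, indV_singleton, indV_singleton, h]

theorem bdy_symmDiff (D D' : Finset Ed) : bdy (D ∆ D') = bdy D ∆ bdy D' := by
  apply indV_inj
  rw [indV_bdy, indV_symmDiff, indV_bdy, indV_bdy, par_ind_symmDiff]

theorem tg_tg (g : Gm) (D D' : Finset Ed) : tg (tg g D) D' = tg g (D ∆ D') := by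
  unfold tg
  rw [bdy_symmDiff]
  exact Prod.ext (symmDiff_assoc _ _ _) rfl

theorem ww_tg (g : Gm) (D : Finset Ed) (ω : Env) : ww (tg g D) ω = ww g ω := rfl

theorem tt_tg (g : Gm) (D : Finset Ed) (ω : Env) : tt (tg g D) ω = vx (tt g ω) (par (ind D)) := by
  unfold tt tg
  rw [indV_symmDiff, indV_bdy, vx_assoc]

variable {ω : Env} {s s' : Vl}

theorem Ok.wpos (h : Ok ω s) (g : Gm) (e : Ed) : 0 < ww g ω e := h.ww_pos g e

theorem Ok.parU (h : Ok ω s) (g : Gm) : par (uu s g) = tt g ω := by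
  funext v
  exact (h.mem g).1 v

theorem Ok.zero (h : Ok ω s) (g : Gm) : hh s g ∅ = 0 := h.hh_emp g

/-- duality -/
theorem Ok.dual (h : Ok ω s) (g : Gm) (D : Finset Ed) : hh s (tg g D) D = - hh s g D :=
  h.hh_self g D

theorem Ok.congr (h : Ok ω s) (g : Gm) {D D' : Finset Ed} (hD : par (ind D) = par (ind D')) :
    hh s g D = hh s g D' :=
  h.hh_congr g (isCyc_symmDiff_of_eq hD)

theorem Ok.abs_le (h : Ok ω s) (g : Gm) (D : Finset Ed) : |hh s g D| ≤ tw (ww g ω) D := by
  have h1 := h.abs_sub_le g ∅ D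
  have h2 : (∅ : Finset Ed) ∆ D = D := bot_symmDiff D
  rw [h2, h.zero, sub_zero] at h1
  exact h1

theorem Ok.far (h : Ok ω s) (g : Gm) (D E : Finset Ed) :
    |hh s (tg g D) E - hh s g E| ≤ 2 * tw (ww g ω) D := by
  have h1 := h.hh_tg g D E
  have h2 := h.abs_sub_le g E D
  have h3 := h.abs_le g D
  rw [symmDiff_comm E D] at h2
  have h4 : hh s (tg g D) E - hh s g E = (hh s g (D ∆ E) - hh s g E) - hh s g D := by
    rw [h1]; ring
  rw [h4]
  have h5 := abs_sub (hh s g (D ∆ E) - hh s g E) (hh s g D)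
  linarith

/-- an energy which is attained determines the state -/
theorem Ok.exact (h : Ok ω s) (g : Gm) {D X : Finset Ed} (hX : par (ind X) = par (ind D))
    (he : en (ww g ω) (uu s g) X ≤ hh s g D) : uu s (tg g D) = bx (uu s g) (ind X) := by
  have h1 : ∀ f, bx (bx (uu s (tg g D)) (uu s g)) (ind X) f = false := by
    intro f
    by_contra hf
    rw [Bool.not_eq_false] at hf
    have h2 := h.gap g D X f hX hf
    have h3 := h.fpos (tg g D) f
    linarith
  rw [bx_assoc] at h1
  exact (bx_eq_false_iff _ _).1 h1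

private theorem wt_ww (h : Ok ω s) (g : Gm) : wt (ww g ω) = ww g ω := by
  funext e
  exact abs_of_pos (h.wpos g e)

/-- the wall points next to `x` and `x'`, and a segment between them -/
theorem foot (h : Ok ω s) (h' : Ok ω s') (g : Gm) {D : Finset Ed} {x x' : Vx}
    (hD : par (ind D) = vx (dl x) (dl x')) {M : ℝ} {r r' : ℕ}
    (hone : One (ww g ω, uu s g, uu s' g))
    (hx : Nr M r x (ww g ω, uu s g, uu s' g)) (hx' : Nr M r' x' (ww g ω, uu s g, uu s' g)) :
    ∃ v v' : Vx, v - x ∈ box r ∧ v' - x' ∈ box r' ∧ OnW (bx (uu s g) (uu s' g)) v ∧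
      OnW (bx (uu s g) (uu s' g)) v' ∧ ∃ X : Finset Ed, (∀ e ∈ X, bx (uu s g) (uu s' g) e = true) ∧
        par (ind X) = vx (dl v) (dl v') ∧ hh s g D ≤ en (ww g ω) (uu s g) X + 2 * M ∧
        hh s' g D ≤ - en (ww g ω) (uu s g) X + 2 * M := by
  obtain ⟨v, hv, hvW, X₁, hX₁, hM₁⟩ := hx
  obtain ⟨v', hv', hvW', X₂, hX₂, hM₂⟩ := hx'
  obtain ⟨X, hXW, hX⟩ := hone.2.2 v v' hvW hvW'
  have hwt : wt (ww g ω) = ww g ω := wt_ww h g
  simp only [hwt] at hM₁ hM₂
  have hw : ∀ e, 0 ≤ ww g ω e := fun e => (h.wpos g e).le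
  have hpar : par (ind ((X ∆ X₁) ∆ X₂)) = par (ind D) := by
    rw [par_ind_symmDiff, par_ind_symmDiff, hX, hX₁, hX₂, hD, vx_comm (vx (dl v) (dl v')),
      vx_trans, vx_comm (dl x') (dl v'), vx_trans]
  refine ⟨v, v', hv, hv', hvW, hvW', X, hXW, hX, ?_, ?_⟩
  · have h1 := h.le g D _ hpar
    have h2 := en_symmDiff_le hw (uu s g) (X ∆ X₁) X₂
    have h3 := en_symmDiff_le hw (uu s g) X X₁
    linarith
  · have h1 := h'.le g D _ hpar
    have h2 := en_symmDiff_le hw (uu s' g) (X ∆ X₁) X₂
    have h3 := en_symmDiff_le hw (uu s' g) X X₁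
    have h4 : en (ww g ω) (uu s' g) X = - en (ww g ω) (uu s g) X := en_wall hXW
    linarith

/-- near one wall the sum of the two energies is bounded -/
theorem defect (h : Ok ω s) (h' : Ok ω s') (g : Gm) {D : Finset Ed} {x x' : Vx}
    (hD : par (ind D) = vx (dl x) (dl x')) {M : ℝ} {r r' : ℕ}
    (hone : One (ww g ω, uu s g, uu s' g))
    (hx : Nr M r x (ww g ω, uu s g, uu s' g)) (hx' : Nr M r' x' (ww g ω, uu s g, uu s' g)) :
    hh s g D + hh s' g D ≤ 4 * M := by
  obtain ⟨_, _, _, _, _, _, X, _, _, h1, h2⟩ := foot h h' g hD hone hx hx'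
  linarith

/-- exactness: the wall passes through both points before and after the toggle -/
theorem exact2 (h : Ok ω s) (h' : Ok ω s') (g : Gm) {D X X' : Finset Ed}
    (hX : ∀ e ∈ X, bx (uu s g) (uu s' g) e = true) (hpX : par (ind X) = par (ind D))
    (hX' : ∀ e ∈ X', bx (uu s (tg g D)) (uu s' (tg g D)) e = true)
    (hpX' : par (ind X') = par (ind D)) :
    uu s (tg g D) = bx (uu s g) (ind X) ∧ uu s' (tg g D) = bx (uu s' g) (ind X) := by
  have h1 := h.le g D X hpX
  have h2 := h'.le g D X hpX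
  have h3 : en (ww g ω) (uu s' g) X = - en (ww g ω) (uu s g) X := en_wall hX
  have h4 := h.le (tg g D) D X' hpX'
  have h5 := h'.le (tg g D) D X' hpX'
  have h6 : en (ww (tg g D) ω) (uu s' (tg g D)) X' = - en (ww (tg g D) ω) (uu s (tg g D)) X' :=
    en_wall hX'
  rw [h.dual] at h4
  rw [h'.dual] at h5
  exact ⟨h.exact g hpX (by linarith), h'.exact g hpX (by linarith)⟩

end Pool.Agent.Helper61.MM
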